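import Mathlib

/-!
# The regulator isomorphism in weight `d` implies all higher weights, and finite characteristic

Let `Z` be a regular connected projective scheme over `ℤ`, of dimension `e`, flat or of finite
characteristic. It is a closed subscheme of `W = ℙᴺ` over `ℤ` for all large `N`; let `c + 1` be its
codimension and `Y` the blow-up of `W` in `Z`, a regular projective flat scheme of dimension
`D = N + 1`. By the blow-up formula the regulator `H^(2D-1-i)(Y, ℚ(D)) → H_𝒟^(2D-1-i)(Y, ℝ(D))` is the
direct sum of the same map for `W` and of the regulators of `Z` in the weights `e + 1, …, e + c` and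
the degrees `2 (e + k) - 1 - i`. So the conjecture for `Y` and `W` implies that all these are
bijective. If `Z` is of finite characteristic the target is zero, and so
`K_(i+1)(Z)^(n) ⊗ ℚ = 0` for `n > dim Z`, `i ≥ 0`.
-/

set_option autoImplicit false

namespace Pool.Agent.Results.MP_51fc19_nt.HigherWeights

/-- A linear map `f : V → W` of real vector spaces. -/
structure RMap where
  V : Type
  W : Type
  groupV : AddCommGroup V
  groupW : AddCommGroup W
  moduleV : Module ℝ V
  moduleW : Module ℝ W
  f : V →ₗ[ℝ] W

attribute [instance] RMap.groupV RMap.groupW RMap.moduleV RMap.moduleW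

/-- `a` is isomorphic to the direct sum of the maps `b` and `c`. -/
def IsSum (a b c : RMap) : Prop :=
  ∃ (e : a.V ≃ₗ[ℝ] b.V × c.V) (e' : a.W ≃ₗ[ℝ] b.W × c.W),
    ∀ x, e' (a.f x) = (b.f (e x).1, c.f (e x).2)

/-- The map is bijective. -/
def Bij (a : RMap) : Prop := Function.Bijective a.f

/-- The dimension of the cokernel is one. -/
def CokerOne (a : RMap) : Prop := Module.finrank ℝ (a.W ⧸ LinearMap.range a.f) = 1

/-- `Sch`: regular connected schemes which are projective over `ℤ`; `Flat Z`; `r Z k i`, where
`n = dim Z + k`: the map from `H^(2n-1-i)(Z, ℚ(n))` tensored with `ℝ` to the real Deligne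
cohomology `H_𝒟^(2n-1-i)` with coefficients `ℝ(n)` of the generic fibre (zero if `Z` is of
finite characteristic), the restriction to the generic fibre followed by the regulator. -/
structure Schemes where
  Sch : Type
  Flat : Sch → Prop
  r : Sch → ℕ → ℕ → RMap

/-- Q1 for `X`: bijectivity for `i ≥ 1`; for `i = 0` injectivity and a cokernel of dimension one,
the dimension of the dual of `CH^0` of the (connected) generic fibre. -/
def QOne (S : Schemes) (X : S.Sch) : Prop :=
  (∀ i, 1 ≤ i → Bij (S.r X 0 i)) ∧ Function.Injective (S.r X 0 0).f ∧ CokerOne (S.r X 0 0)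

/-- The map of `Y` in the weight `dim Y` and the degree given by `i` is the direct sum of the map of
`W` and of the maps of `Z` in the weights `dim Z + 1, …, dim Z + c`. -/
def Splits (S : Schemes) (Y W Z : S.Sch) (c i : ℕ) : Prop :=
  ∃ R : ℕ → RMap, R 0 = S.r W 0 i ∧ R c = S.r Y 0 i ∧
    ∀ j, j < c → IsSum (R (j + 1)) (R j) (S.r Z (j + 1) i)

/-- The fact used: the blow-up formula for the blow-ups `Y` of projective spaces `W` over `ℤ` in `Z`,
in all large codimensions `c + 1`; it is compatible with the regulators. -/
def BlowUpFormula (S : Schemes) : Prop :=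
  ∀ Z, ∃ c₀ : ℕ, ∀ c, c₀ ≤ c → ∃ W Y, S.Flat W ∧ S.Flat Y ∧ ∀ i, Splits S Y W Z c i

section algebra

variable {a b c : RMap}

theorem IsSum.injective (h : IsSum a b c) (ha : Function.Injective a.f) :
    Function.Injective b.f ∧ Function.Injective c.f := by
  obtain ⟨e, e', he⟩ := h
  rw [injective_iff_map_eq_zero] at ha
  constructor
  · rw [injective_iff_map_eq_zero]
    intro x hx
    have h1 : a.f (e.symm (x, 0)) = 0 := by
      apply e'.injective
      rw [he, e.apply_symm_apply, map_zero, hx, map_zero]
      rfl
    have h3 := congrArg e (ha _ h1)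
    rw [e.apply_symm_apply, map_zero] at h3
    exact congrArg Prod.fst h3
  · rw [injective_iff_map_eq_zero]
    intro x hx
    have h1 : a.f (e.symm (0, x)) = 0 := by
      apply e'.injective
      rw [he, e.apply_symm_apply, map_zero, hx, map_zero]
      rfl
    have h3 := congrArg e (ha _ h1)
    rw [e.apply_symm_apply, map_zero] at h3
    exact congrArg Prod.snd h3

theorem IsSum.surjective (h : IsSum a b c) (ha : Function.Surjective a.f) :
    Function.Surjective b.f ∧ Function.Surjective c.f := by
  obtain ⟨e, e', he⟩ := h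
  constructor
  · intro y
    obtain ⟨x, hx⟩ := ha (e'.symm (y, 0))
    have h1 := he x
    rw [hx, e'.apply_symm_apply] at h1
    exact ⟨(e x).1, (congrArg Prod.fst h1).symm⟩
  · intro y
    obtain ⟨x, hx⟩ := ha (e'.symm (0, y))
    have h1 := he x
    rw [hx, e'.apply_symm_apply] at h1
    exact ⟨(e x).2, (congrArg Prod.snd h1).symm⟩

/-- The cokernel of a direct sum. -/
theorem IsSum.coker (h : IsSum a b c) (ha : Module.Finite ℝ (a.W ⧸ LinearMap.range a.f)) :
    Module.Finite ℝ (b.W ⧸ LinearMap.range b.f) ∧ Module.Finite ℝ (c.W ⧸ LinearMap.range c.f) ∧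
    Module.finrank ℝ (b.W ⧸ LinearMap.range b.f) + Module.finrank ℝ (c.W ⧸ LinearMap.range c.f) ≤
      Module.finrank ℝ (a.W ⧸ LinearMap.range a.f) := by
  obtain ⟨e, e', he⟩ := h
  let f : a.W →ₗ[ℝ] (b.W ⧸ LinearMap.range b.f) × (c.W ⧸ LinearMap.range c.f) :=
    ((Submodule.mkQ _).comp ((LinearMap.fst ℝ _ _).comp e'.toLinearMap)).prod
      ((Submodule.mkQ _).comp ((LinearMap.snd ℝ _ _).comp e'.toLinearMap))
  have hf : LinearMap.range a.f ≤ LinearMap.ker f := by
    rintro _ ⟨x, rfl⟩
    rw [LinearMap.mem_ker]
    refine Prod.ext ?_ ?_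
    · show Submodule.Quotient.mk (e' (a.f x)).1 = 0
      rw [he, Submodule.Quotient.mk_eq_zero]
      exact ⟨_, rfl⟩
    · show Submodule.Quotient.mk (e' (a.f x)).2 = 0
      rw [he, Submodule.Quotient.mk_eq_zero]
      exact ⟨_, rfl⟩
  have hsurj : Function.Surjective f := by
    rintro ⟨y, z⟩
    obtain ⟨y, rfl⟩ := Submodule.Quotient.mk_surjective _ y
    obtain ⟨z, rfl⟩ := Submodule.Quotient.mk_surjective _ z
    refine ⟨e'.symm (y, z), ?_⟩
    refine Prod.ext ?_ ?_
    · show Submodule.Quotient.mk (e' (e'.symm (y, z))).1 = _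
      rw [e'.apply_symm_apply]
    · show Submodule.Quotient.mk (e' (e'.symm (y, z))).2 = _
      rw [e'.apply_symm_apply]
  let g := (LinearMap.range a.f).liftQ f hf
  have hg : Function.Surjective g := by
    intro y
    obtain ⟨x, hx⟩ := hsurj y
    exact ⟨Submodule.Quotient.mk x, by rw [← hx]; rfl⟩
  have h1 : Module.Finite ℝ (b.W ⧸ LinearMap.range b.f) :=
    Module.Finite.of_surjective ((LinearMap.fst ℝ _ _).comp g) (Prod.fst_surjective.comp hg)
  have h2 : Module.Finite ℝ (c.W ⧸ LinearMap.range c.f) :=
    Module.Finite.of_surjective ((LinearMap.snd ℝ _ _).comp g) (Prod.snd_surjective.comp hg)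
  refine ⟨h1, h2, ?_⟩
  have h3 := LinearMap.finrank_le_finrank_of_surjective hg
  rwa [Module.finrank_prod] at h3

theorem surjective_of_finrank (a : RMap) (hf : Module.Finite ℝ (a.W ⧸ LinearMap.range a.f))
    (h : Module.finrank ℝ (a.W ⧸ LinearMap.range a.f) = 0) : Function.Surjective a.f := by
  have h3 := Module.finrank_zero_iff.1 h
  rw [← LinearMap.range_eq_top]
  exact Submodule.Quotient.subsingleton_iff.1 h3

end algebra

/-- Q1 for all flat regular connected projective schemes over `ℤ` implies that for ALL regular
connected projective schemes `Z` over `ℤ`, flat or of finite characteristic, the maps `r Z k i` are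
bijective for all `k ≥ 1` and `i ≥ 0`: the regulators of `Z` in all weights `n > dim Z` and all
degrees `2n - 1 - i`. -/
theorem result (S : Schemes) (hb : BlowUpFormula S) (hQ : ∀ X, S.Flat X → QOne S X) :
    ∀ (Z : S.Sch) (k i : ℕ), 1 ≤ k → Bij (S.r Z k i) := by
  intro Z k i hk
  obtain ⟨c₀, hc⟩ := hb Z
  obtain ⟨W, Y, hW, hY, hs⟩ := hc (max c₀ k) (le_max_left _ _)
  set c := max c₀ k with hcdef
  obtain ⟨m, rfl⟩ : ∃ m, k = m + 1 := ⟨k - 1, by omega⟩
  have hm : m < c := lt_of_lt_of_le (Nat.lt_succ_self m) (le_max_right _ _)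
  obtain ⟨y1, y2, y3⟩ := hQ Y hY
  obtain ⟨w1, w2, w3⟩ := hQ W hW
  obtain ⟨R, hR0, hRc, hR⟩ := hs i
  -- injectivity of all steps
  have hinjc : Function.Injective (R c).f := by
    rw [hRc]
    rcases Nat.eq_zero_or_pos i with h0 | h0
    · subst h0; exact y2
    · exact (y1 i h0).1
  have hinj : ∀ l, l ≤ c → Function.Injective (R (c - l)).f := by
    intro l
    induction l with
    | zero => intro _; exact hinjc
    | succ l ih =>
      intro hl
      have h1 := ih (by omega)
      have h2 := hR (c - (l + 1)) (by omega)
      rw [show c - (l + 1) + 1 = c - l by omega] at h2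
      exact (h2.injective h1).1
  have hinjm : Function.Injective (S.r Z (m + 1) i).f := by
    have h1 := hinj (c - (m + 1)) (by omega)
    rw [show c - (c - (m + 1)) = m + 1 by omega] at h1
    exact ((hR m hm).injective h1).2
  refine ⟨hinjm, ?_⟩
  rcases Nat.eq_zero_or_pos i with h0 | h0
  · -- the cokernels
    subst h0
    have hfin : ∀ l, l ≤ c →
        Module.Finite ℝ ((R (c - l)).W ⧸ LinearMap.range (R (c - l)).f) ∧
        Module.finrank ℝ ((R (c - l)).W ⧸ LinearMap.range (R (c - l)).f) ≤ 1 := by
      intro l
      induction l with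
      | zero =>
        intro _
        rw [Nat.sub_zero, hRc]
        exact ⟨Module.finite_of_finrank_pos (by rw [y3]; exact one_pos), y3.le⟩
      | succ l ih =>
        intro hl
        have h1 := ih (by omega)
        have h2 := hR (c - (l + 1)) (by omega)
        rw [show c - (l + 1) + 1 = c - l by omega] at h2
        obtain ⟨f1, f2, f3⟩ := h2.coker h1.1
        exact ⟨f1, by omega⟩
    have hge : ∀ l, l ≤ c → 1 ≤ Module.finrank ℝ ((R l).W ⧸ LinearMap.range (R l).f) := by
      intro l
      induction l with
      | zero =>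
        intro _
        rw [hR0]
        exact w3.ge
      | succ l ih =>
        intro hl
        have h1 := ih (by omega)
        have h2 := hfin (c - (l + 1)) (by omega)
        rw [show c - (c - (l + 1)) = l + 1 by omega] at h2
        obtain ⟨f1, f2, f3⟩ := (hR l (by omega)).coker h2.1
        omega
    have h1 := hfin (c - (m + 1)) (by omega)
    rw [show c - (c - (m + 1)) = m + 1 by omega] at h1
    obtain ⟨f1, f2, f3⟩ := (hR m hm).coker h1.1
    have h2 := hge m hm.le
    exact surjective_of_finrank _ f2 (by omega)
  · have hsurj : ∀ l, l ≤ c → Function.Surjective (R (c - l)).f := by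
      intro l
      induction l with
      | zero =>
        intro _
        rw [Nat.sub_zero, hRc]
        exact (y1 i h0).2
      | succ l ih =>
        intro hl
        have h1 := ih (by omega)
        have h2 := hR (c - (l + 1)) (by omega)
        rw [show c - (l + 1) + 1 = c - l by omega] at h2
        exact (h2.surjective h1).1
    have h1 := hsurj (c - (m + 1)) (by omega)
    rw [show c - (c - (m + 1)) = m + 1 by omega] at h1
    exact ((hR m hm).surjective h1).2

end Pool.Agent.Results.MP_51fc19_nt.HigherWeights
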