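import Pool.Agent.U374.Tw.Main
set_option autoImplicit false

/-!
The regulator on `H^{d+1}(𝒳, ℚ(d+1))`, `dim 𝒳 = d + 1`, for models `𝒳` of the hypersurfaces
`λ g ∏_(j,i) (x_j - φ_(j,i)(x_0, ..., x_(j-1))) ^ w_(j,i) = 1` of dimension `d` over an arbitrary
number field, with arbitrary integral polynomials `φ_(j,i)` (different for every `j`), `g ≠ 0` and
arbitrary exponents `w_(j,i) ≥ 0`. The graphs with exponent zero do not meet the equation, but they
give more classes: the combinations `∑_T n_T {P_(0,T_0), ..., P_(d,T_d)}` of the symbols of the vertices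
whose coefficients satisfy the linear equations given by the coincidences of the graphs on the graphs
with exponent zero are unramified, and their regulators are linearly independent, for all large
integers `λ`.
-/

namespace Pool.Agent.Results.MP_51fc19_nt.TowersAllMultiplicities

open Pool.Agent.TH826.MK (KQ Unramified Torus)

open Pool.Agent.U374.Tr (Tup)

open Pool.Agent.U374.Tw

open MvPolynomial

section defs

variable {K : Type*} [Field K] {d : ℕ}

/-- `∏_j r_j ≤ dim Adm + ∑_(j,i) (∏_{l < j} r_l) (∏_{l > j} (c_l(j,i) - 1))`, where `(j,i)` runs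
through the pairs with exponent `w_(j,i) = 0`, and `c_l(j,i)` is the number of the different
polynomials among the restrictions of `φ_(l,0), ..., φ_(l,r_l)` to the graph `x_j = φ_(j,i)`. -/
def DimensionBound (A : Tow K d) : Prop :=
  ∏ j, A.r j ≤ Module.finrank ℚ A.Adm +
    ∑ e : A.Ix, if A.w e.1 e.2 = 0 then
      (∏ l with l < e.1, A.r l) * ∏ l with e.1 < l, (A.cnt e l - 1) else 0

/-- At all complex points (over `σ`) of the hypersurface `Φ(x) = 1` the gradient of the equation is
not zero. -/
def Smooth (σ : K →+* ℂ) (A : Tow K d) (lam : K) : Prop :=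
  ∀ x : Fin (d + 1) → ℂ, eval₂ σ x (A.Phi lam) = 1 → ∃ j, eval₂ σ x (pderiv j (A.Phi lam)) ≠ 0

/-- The classes with coefficients in `Adm` have unramified images in the Milnor K-theory of all
fields `L` with a homomorphism from the coordinate ring of the open part. -/
def UnramifiedClasses.{u, v} {K : Type u} [Field K] {d : ℕ} (A : Tow K d) (lam : K) : Prop :=
  ∀ n ∈ A.Adm, ∀ (L : Type v) [Field L] (f : A.Open lam →+* L),
    KQ.map _ f (A.cl lam n) ∈ Unramified L _

/-- There are tori `Γ_T` over `σ`, one for each tuple `T` with `w_(j,T_j) > 0` for some `j`, such that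
the determinant of the regulators of the symbols of these tuples `T'` on the tori `Γ_T` does not
vanish, and such that the vectors of the regulators of the classes of linearly independent elements
`n_1, ..., n_D` of `Adm` are linearly independent over the real numbers. -/
def IndependentRegulators (σ : K →+* ℂ) (A : Tow K d) (lam : K) : Prop :=
  ∃ Γ : A.Vx → Torus (A.Open lam) d, (∀ T θ (x : K), (Γ T).e θ (A.cst lam x) = σ x) ∧
    (Matrix.of fun T T' : A.Vx => (Γ T).reg (A.sym lam T'.1)).det ≠ 0 ∧
    ∀ (D : ℕ) (n : Fin D → Tup A.r → ℚ), (∀ k, n k ∈ A.Adm) → LinearIndependent ℚ n →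
      LinearIndependent ℝ fun k T => (Γ T).reg (A.cl lam (n k))

end defs

/-- Let `σ` be a complex embedding of the number field `K`. For `0 ≤ j ≤ d` let
`φ_(j,0), ..., φ_(j,r_j)` be different polynomials in `x_0, ..., x_(j-1)` over `K` with integral
coefficients, let `w_(j,i) ≥ 0` be integers, and let `g ≠ 0` be a polynomial in `x_0, ..., x_d` with
integral coefficients. Put `P_(j,i) = x_j - φ_(j,i)(x_0, ..., x_(j-1))`.

Let `Adm` be the space of the rational functions `n` on the tuples `T = (T_0, ..., T_d)`,
`0 ≤ T_j ≤ r_j`, such that

* for every `j` and `T` the sum of the `n` of the tuples which one gets from `T` by replacing `T_j`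
  vanishes, and
* for every `j` and `T` with `w_(j,T_j) = 0` the sum of the `n_{T'}` over the tuples `T'` with
  `T'_l = T_l` for `l ≤ j` and `φ_(l,T'_l) = φ_(l,T_l)` on the graph `x_j = φ_(j,T_j)` for `l > j`
  vanishes.

The dimension of `Adm` is at least `∏_j r_j - ∑_(j,i) (∏_{l < j} r_l) (∏_{l > j} (c_l(j,i) - 1))`,
where `(j,i)` runs through the pairs with `w_(j,i) = 0`, and `c_l(j,i)` is the number of the different
restrictions of `φ_(l,0), ..., φ_(l,r_l)` to the graph `x_j = φ_(j,i)`.

There is a constant `C` such that for all algebraic integers `λ` of `K` with `|σ λ| ≥ C` the following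
holds for the hypersurface `λ g(x) ∏_(j,i) P_(j,i)(x) ^ w_(j,i) = 1` of dimension `d`.

The hypersurface is smooth (over `σ`).

For all `n` in `Adm` the class `∑_T n_T {P_(0,T_0), ..., P_(d,T_d)}` in the Milnor K-theory of the
coordinate ring `A` of its open part on which the `P_(j,i)` do not vanish has unramified images in the
Milnor K-theory of all fields `L` with a homomorphism `A → L` (for example the function field).

There are tori `Γ_T` of dimension `d` in the complex points (over `σ`) of the open part, for all tuples
with `w_(j,T_j) > 0` for some `j`, such that the determinant of the regulators of the symbols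
`{P_(0,T'_0), ..., P_(d,T'_d)}` of these tuples on the tori does not vanish, and such that the
regulators of the classes of linearly independent elements of `Adm` on these tori are linearly
independent over the real numbers. -/
theorem result.{u, v} (d : ℕ) (K : Type u) [Field K] [NumberField K] (σ : K →+* ℂ)
    (A : Tow K d) (hA : A.Admissible) :
    DimensionBound A ∧ ∃ C : ℝ, ∀ lam : K, IsIntegral ℤ lam → C ≤ ‖σ lam‖ →
      Smooth σ A lam ∧ UnramifiedClasses.{u, v} A lam ∧ IndependentRegulators σ A lam := by
  obtain ⟨C, -, hC⟩ := Tow.exists_det σ hA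
  obtain ⟨C', -, hC'⟩ := Tow.exists_smooth A σ
  refine ⟨A.finrank_adm, max C C', fun lam hlam hl => ⟨hC' lam ((le_max_right _ _).trans hl),
    Tow.unram hA hlam, ?_⟩⟩
  obtain ⟨Γ, h1, h2⟩ := hC lam ((le_max_left _ _).trans hl)
  exact ⟨Γ, h1, h2, fun D n hn hli => Tow.linearIndependent_reg Γ h2 hn hli⟩

end Pool.Agent.Results.MP_51fc19_nt.TowersAllMultiplicities
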