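import Pool.Agent.U759.TQ.Nm
set_option autoImplicit false

/-!
The regulator on `H^d(𝒳, ℚ(d))`, `d = dim 𝒳 = n + 1`, `i = d - 1`, for models `𝒳` of the hypersurfaces
`φ_0(z_0) φ_1(z_1) ... φ_n(z_n) = λ` of dimension `n ≥ 2` over number fields with infinitely many units,
where the `φ_l` are rational functions and `λ` is a unit which is large at a place `σ` and small at a
place `τ` (for example a large power of any unit of infinite order).

There are two kinds of functions: functions `A_(l,j) / B_(l,j)`, `1 ≤ j ≤ k_l`, whose zeros and poles are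
poles of `φ_l` and whose values at the zeros of `φ_l` are roots of unity, and functions
`A'_(l,j) / B'_(l,j)`, `1 ≤ j ≤ k'_l`, with zeros and poles at the zeros of `φ_l` and with roots of unity as
values at the poles of `φ_l`. The `∏_l k_l + ∏_l k'_l` symbols of functions of the same kind are
unramified at all discrete valuations, and their regulators on tori over `σ` and over `τ` are linearly
independent; the hypersurface is smooth and irreducible.

Example: `φ_l = ∏_i (z - α_(l,i)) ^ a_(l,i) / ∏_j (z - β_(l,j)) ^ b_(l,j)`, where all differences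
`α_(l,i) - β_(l,j)` are roots of unity, such as `(z^q - 1) / z^p` or
`(z - ρ)^a (z - 1 + ρ)^b / (z^c (z - 1)^d)`, `ρ² - ρ + 1 = 0`, with the functions `z - β_(l,j)` and
`(z - α_(l,i)) / (z - α_(l,0))`.

The proof. Unramified: let `v` be a discrete valuation; since `λ` is a unit, `∑ v(φ_l) = 0`, and if
an entry is not a unit at `v`, then a power of another one is a one-unit. Regulators: on a torus over
`σ` around poles of the `φ_l` the symbols of the first kind have the regulators `δ c log |λ| + O(1)`, and
those of the second kind are bounded; over `τ` it is the other way round. Irreducible: the branch near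
a simple pole of `φ_0` can be continued along paths which connect the points at which some `φ_l`,
`l ≥ 1`, vanishes.
-/

namespace Pool.Agent.Results.MP_51fc19_nt.TwoPlaceProducts

open Pool.Agent.U759.TQ

/-- Let `K` be a number field and `n ≥ 2`. For `0 ≤ l ≤ n` let `φ_l = N_l / M_l` be a rational function
with the functions `A_(l,j) / B_(l,j)`, `1 ≤ j ≤ k_l`, and `A'_(l,j) / B'_(l,j)`, `1 ≤ j ≤ k'_l`, where
`k_l, k'_l ≥ 1`, with the conditions `Dat2.Ok`: all polynomials are monic and have algebraic integers as
coefficients; the zeros of the `A_(l,j)` and `B_(l,j)` are zeros of `M_l`, the polynomials `N_l` and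
`B_(l,j)` generate the unit ideal over the algebraic integers, `N_l` divides a power of
`A_(l,j)^m - B_(l,j)^m` for some `m ≥ 1`, and `deg M_l < deg N_l`, or `deg A_(l,j) = deg B_(l,j)` for all
`j`; for fixed `l` the `A_(l,j)` are not constant, pairwise coprime and coprime to the `B_(l,i)`, and the
zeros of the `A_(0,j)` are simple zeros of `M_0`; and the same holds for `M_l, N_l, A'_(l,j), B'_(l,j)` in
the place of `N_l, M_l, A_(l,j), B_(l,j)`.

There is a constant `C` such that for all complex embeddings `σ, τ` of `K` and all units `λ` of the ring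
of integers with `|σ λ| ≥ C` and `|τ λ| ≤ 1 / C` the following (`Concl`) holds for the hypersurface
`∏_l N_l(z_l) = λ ∏_l M_l(z_l)` of dimension `n`: its open part, on which the `M_l(z_l)` and the
`A, B, A', B'` do not vanish, is not empty; its coordinate ring is a domain if `N_l, M_l` are coprime for
all `l` and `deg M_l ≤ deg N_l` for `l ≥ 1`; it is smooth at its complex points over `σ` and `τ` with
`M_l(z_l) ≠ 0` for all `l`; the `∏_l k_l + ∏_l k'_l` symbols `{A_(l,j_l)/B_(l,j_l) (z_l), 0 ≤ l ≤ n}` and
`{A'_(l,j_l)/B'_(l,j_l) (z_l), 0 ≤ l ≤ n}` have unramified images in `K_(n+1) (L) ⊗ ℚ` for all fields `L`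
with a homomorphism from the coordinate ring of the open part; and there are `∏_l k_l` tori over `σ` and
`∏_l k'_l` tori over `τ` in the open part such that the determinant of the regulators of the symbols on
the tori does not vanish.

If `e` is a unit which is not a root of unity, there are `σ` and `τ` such that all this holds for
`λ = e^m` for all large `m`.

The conditions are satisfied by `N_l = ∏_{0 ≤ i ≤ r_l} (z - α_(l,i)) ^ a_(l,i)`,
`M_l = ∏_{1 ≤ j ≤ s_l} (z - β_(l,j)) ^ b_(l,j)` with the functions `z - β_(l,j)` and
`(z - α_(l,i)) / (z - α_(l,0))`, `1 ≤ i ≤ r_l`, if `deg M_l < deg N_l`, the `α_(l,i)` and `β_(l,j)` are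
different algebraic integers of `K`, all exponents are positive, those for `l = 0` are `1`, and all
differences `α_(l,i) - β_(l,j)` are roots of unity; there are `∏_l s_l + ∏_l r_l` symbols. In this case
the coordinate ring is a domain. -/
theorem result.{u, v} (K : Type u) [Field K] [NumberField K] (n : ℕ) (hn : 2 ≤ n) :
    (∀ (k k' : Fin (n + 1) → ℕ) (E : Dat2 K n k k'), (∀ l, k l ≠ 0) → (∀ l, k' l ≠ 0) → E.Ok →
      LargeUnits.{u, v} E) ∧
    ∀ (r s : Fin (n + 1) → ℕ) (α : ∀ l, Fin (r l + 1) → K) (a : ∀ l, Fin (r l + 1) → ℕ)
      (β : ∀ l, Fin (s l) → K) (b : ∀ l, Fin (s l) → ℕ),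
      (∀ l, RootPts (α l) (a l) (β l) (b l)) → (∀ i, a 0 i = 1) → (∀ j, b 0 j = 1) →
        Good (rootDat α a β b) :=
  ⟨fun _ _ _ hk hk' H => largeUnits H hk hk' (by omega),
    fun _ _ _ _ _ _ H ha hb => rootDat_good H ha hb⟩

end Pool.Agent.Results.MP_51fc19_nt.TwoPlaceProducts
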