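import Pool.Agent.U738.RG.Main

/-!
# Regulator isomorphisms: two-term equations and torus actions of small complexity

`Regulators` are the maps `reg n i X : M n i X → D n i X` from the motivic Borel-Moore homology
`M n i X = CH_n(X, i) ⊗ ℝ` of the separated schemes `X` of finite type over `ℤ` to its archimedean analogue,
for all weights `n`. `IsRegulator` lists the known properties which are used: the regulators are maps
between the localization sequences, homotopy invariance (with the shift of the weight), and the theorems of
Dirichlet, Borel and Harder for the affine schemes of dimension at most one. For `X` connected, regular,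
proper and flat over `ℤ` of dimension `d` (`IsArithmetic`), `Q1 T X` is the assertion of Q1 for the maps
`r_i : H^{2d-1-i}(X, ℚ(d)) ⊗ ℝ → H^{2d-1-i}_D(X_ℝ, ℝ(d))`, which are the regulators of weight `0`.

`AllBijective T X` means that the regulators of `X` of all weights `n ≤ 0` are isomorphisms.

For every `N` the following are equivalent:

1. `N ≤ 1`, or `AllBijective` for all affine schemes of finite type over `ℤ` of dimension at most `N`;
2. `AllBijective` for all schemes `X = Spec S[x_1, …, x_m] / (G)` of any dimension, where `dim S ≤ N` and
   `G` is any set of polynomials with at most two terms, with arbitrary coefficients in `S`;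
3. `AllBijective` for all schemes `X = Spec A` of any dimension and with any singularities, where `A` has a
   grading by a commutative group (an action of a diagonalizable group) of complexity at most `N`;
4. `AllBijective` for all schemes in the smallest class `Built N` which contains all these schemes and is
   closed under cutting and pasting and under products of affine schemes with the affine line.

If they are true (for instance if `N = 1`), then Q1 is true for all connected, regular, proper and flat
schemes in `Built N`.

Proof: five lemma, and the strata of the schemes in 2. and 3. are tori over schemes of dimension at most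
`N`; the class is closed under products with `𝔾_m` because all weights `n ≤ 0` are treated together.
-/

set_option autoImplicit false

open CategoryTheory AlgebraicGeometry Pool.Agent.Y116.UV Pool.Agent.U738.BN Pool.Agent.U738.CX
  Pool.Agent.U738.SO Pool.Agent.U738.RG

namespace Pool.Agent.Results.MP_51fc19_nt.TwoTermsAndComplexity

universe w

lemma of_terms {T : Regulators.{w}} (h : IsRegulator T) (N : WithBot ℕ∞)
    (h1 : ForTerms N 2 (AllBijective T)) : ForDimension N (AllBijective T) := by
  intro A _ _ _ hA
  have h2 := h1 A hA 0 ∅ (by simp)
  have e : (MvPolynomial (Fin 0) A ⧸ Ideal.span (∅ : Set (MvPolynomial (Fin 0) A))) ≃ₐ[ℤ] A :=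
    ((AlgEquiv.quotientBot ℤ (MvPolynomial (Fin 0) A)).symm.trans
      (Ideal.quotientEquivAlgOfEq ℤ (Ideal.span_empty).symm)).symm.trans
      ((MvPolynomial.isEmptyAlgEquiv A (Fin 0)).restrictScalars ℤ)
  exact all_iso h (ft_aff True) ⟨affIso e.symm⟩ h2

lemma of_complexity {T : Regulators.{w}} (h : IsRegulator T) (N : WithBot ℕ∞)
    (h1 : ForComplexity N (AllBijective T)) : ForDimension N (AllBijective T) := by
  have hb : ForDimension (⊥ : WithBot ℕ∞) (AllBijective T) :=
    fun A _ _ _ hA => h.curve A (hA.trans bot_le)
  have hP := posD h hb
  exact (complexity_iff hP.iso hP.total hP.times).mpr h1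

/-- **Theorem.** The regulators of all weights `n ≤ 0` are isomorphisms in dimension at most `N` if and only
if this is so for two-term equations over rings of dimension at most `N`, for gradings of complexity at most
`N`, and for all schemes built from these; all this is true for `N ≤ 1`; and Q1 follows for the connected,
regular, proper and flat schemes in `Built N`. -/
theorem result (T : Regulators.{w}) (h : IsRegulator T) (N : ℕ) :
    List.TFAE [
      N ≤ 1 ∨ ForDimension N (AllBijective T),
      ForTerms N 2 (AllBijective T),
      ForComplexity N (AllBijective T),
      ∀ X : Sch ℤ, Built N X → AllBijective T X] ∧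
    ((N ≤ 1 ∨ ForDimension N (AllBijective T)) →
      ∀ X : Sch ℤ, Built N X → IsArithmetic X → Q1 T X) := by
  have h0 : (N ≤ 1 ∨ ForDimension N (AllBijective T)) → ForDimension N (AllBijective T) := by
    rintro (hN | hN)
    · intro A _ _ _ hA
      exact h.curve A (hA.trans (by exact_mod_cast hN))
    · exact hN
  refine ⟨?_, fun h1 X hX hX' => q1_of h hX' (built h (h0 h1) hX)⟩
  tfae_have 1 → 4 := fun h1 X hX => built h (h0 h1) hX
  tfae_have 4 → 2 := fun h4 S _ _ _ hS m G hG => h4 _ (Built.terms S m G hS hG)
  tfae_have 4 → 3 := fun h4 A _ _ _ Γ _ _ 𝒜 _ hd => h4 _ (Built.graded A Γ 𝒜 hd)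
  tfae_have 2 → 1 := fun h2 => Or.inr (of_terms h N h2)
  tfae_have 3 → 1 := fun h3 => Or.inr (of_complexity h N h3)
  tfae_finish

end Pool.Agent.Results.MP_51fc19_nt.TwoTermsAndComplexity
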